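import Pool.Agent.helper11.VN.Spec3b
import Pool.Agent.helper76.VQ.PCL

/-!
# MP_07c750 (QUE), project VN, row PCN (close conformal factors, derivatives of order two)
-/

set_option autoImplicit false

open scoped MatrixGroups ContDiff Topology UpperHalfPlane ComplexConjugate ENNReal
open UpperHalfPlane MeasureTheory Filter Set

namespace Pool.Agent.VN

open Pool.Agent.RS Pool.Agent.VQ
open Pool.Agent.RPQ (CkB)

noncomputable section

/-- the derivative of the Moebius map -/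
def PCN_m1 (w : ℂ) : ℂ := 4 * Complex.I / (2 - w) ^ 2

theorem PCN_md (w : ℂ) (hw : 2 - w ≠ 0) : HasFDerivAt PCL_m (PCN_m1 w • (1 : ℂ →L[ℝ] ℂ)) w := by
  have h1 : HasDerivAt (fun w : ℂ => Complex.I * (2 + w)) Complex.I w := by
    have h := ((hasDerivAt_id w).const_add 2).const_mul Complex.I
    simpa using h
  have h2 : HasDerivAt (fun w : ℂ => 2 - w) (-1) w := by
    have h := (hasDerivAt_id w).const_sub 2
    simpa using h
  have h3 := h1.div h2 hw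
  have h4 : (Complex.I * (2 - w) - Complex.I * (2 + w) * (-1)) / (2 - w) ^ 2 = PCN_m1 w := by
    unfold PCN_m1
    congr 1
    ring
  rw [h4] at h3
  exact h3.complexToReal_fderiv

theorem PCN_m10 : PCN_m1 0 = Complex.I := by
  unfold PCN_m1
  rw [sub_zero]
  norm_num

theorem PCN_m1d : HasFDerivAt PCN_m1 (Complex.I • (1 : ℂ →L[ℝ] ℂ)) 0 := by
  have h2 : HasDerivAt (fun w : ℂ => 2 - w) (-1) 0 := by
    have h := (hasDerivAt_id (0 : ℂ)).const_sub 2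
    simpa using h
  have h3 : HasDerivAt (fun w : ℂ => (2 - w) ^ 2) (-4) 0 := by
    have h := h2.pow 2
    have e : (((2 : ℕ) : ℂ) * (2 - 0) ^ (2 - 1) * (-1)) = -4 := by
      norm_num
    have h' : HasDerivAt (fun w : ℂ => (2 - w) ^ 2) (((2 : ℕ) : ℂ) * (2 - 0) ^ (2 - 1) * (-1)) 0 := h
    rw [e] at h'
    exact h'
  have h4 : HasDerivAt PCN_m1 ((0 * (2 - 0) ^ 2 - 4 * Complex.I * (-4)) / ((2 - 0) ^ 2) ^ 2) 0 :=
    (hasDerivAt_const (0 : ℂ) (4 * Complex.I)).div h3 (by norm_num : ((2 : ℂ) - 0) ^ 2 ≠ 0)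
  have h5 : (0 * (2 - 0) ^ 2 - 4 * Complex.I * (-4)) / ((2 - 0) ^ 2) ^ 2 = Complex.I := by
    ring
  rw [h5] at h4
  exact h4.complexToReal_fderiv

/-- the derivative of `K ∘ m` -/
def PCN_A (K : ℂ → ℝ) (w : ℂ) : ℂ →L[ℝ] ℝ := (fderiv ℝ K (PCL_m w)).comp (PCN_m1 w • (1 : ℂ →L[ℝ] ℂ))

theorem PCN_ev : ∀ᶠ w : ℂ in 𝓝 0, 2 - w ≠ 0 := by
  have h : ContinuousAt (fun w : ℂ => 2 - w) 0 := by fun_prop
  exact h.eventually_ne (by norm_num)

theorem PCN_first (K : ℂ → ℝ) (hK : ContDiffAt ℝ 2 K Complex.I) :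
    ∀ᶠ w : ℂ in 𝓝 0, DifferentiableAt ℝ K (PCL_m w) ∧ HasFDerivAt (fun w => K (PCL_m w)) (PCN_A K w) w := by
  have h1 : ∀ᶠ q in 𝓝 (PCL_m 0), ContDiffAt ℝ 2 K q := by
    rw [PCL_m0]
    exact hK.eventually (by simp)
  have h2 : ∀ᶠ w in 𝓝 (0 : ℂ), ContDiffAt ℝ 2 K (PCL_m w) := PCL_mder.continuousAt.eventually h1
  filter_upwards [h2, PCN_ev] with w hw hw2
  have h3 : DifferentiableAt ℝ K (PCL_m w) := hw.differentiableAt (by norm_num)
  exact ⟨h3, HasFDerivAt.comp w h3.hasFDerivAt (PCN_md w hw2)⟩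

theorem PCN_second (K : ℂ → ℝ) (hK : ContDiffAt ℝ 2 K Complex.I) :
    ∃ A2 : ℂ →L[ℝ] ℂ →L[ℝ] ℝ, HasFDerivAt (PCN_A K) A2 0 ∧
      ∀ u v : ℂ, A2 u v = fderiv ℝ K Complex.I (Complex.I * u * v) +
        fderiv ℝ (fderiv ℝ K) Complex.I (Complex.I * u) (Complex.I * v) := by
  have hd1 : ContDiffAt ℝ 1 (fderiv ℝ K) Complex.I := hK.fderiv_right (m := 1) (by norm_num)
  have h1 : HasFDerivAt (fderiv ℝ K) (fderiv ℝ (fderiv ℝ K) Complex.I) (PCL_m 0) := by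
    rw [PCL_m0]
    exact (hd1.differentiableAt (by norm_num)).hasFDerivAt
  have h2 : HasFDerivAt (fun w => fderiv ℝ K (PCL_m w)) ((fderiv ℝ (fderiv ℝ K) Complex.I).comp (Complex.I • (1 : ℂ →L[ℝ] ℂ))) 0 :=
    HasFDerivAt.comp (0 : ℂ) h1 PCL_mder
  have h3 : HasFDerivAt (fun w : ℂ => PCN_m1 w • (1 : ℂ →L[ℝ] ℂ)) ((Complex.I • (1 : ℂ →L[ℝ] ℂ)).smulRight (1 : ℂ →L[ℝ] ℂ)) 0 :=
    PCN_m1d.smul_const (1 : ℂ →L[ℝ] ℂ)
  have h4 := h2.clm_comp h3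
  refine ⟨_, h4, fun u v => ?_⟩
  rw [PCL_m0, PCN_m10]
  simp

theorem PCN_A0 (K : ℂ → ℝ) (b : ℝ) (h1 : ‖fderiv ℝ K Complex.I‖ ≤ b) : ‖PCN_A K 0‖ ≤ b := by
  unfold PCN_A
  rw [PCL_m0, PCN_m10]
  exact le_trans (PCL_nrm _) h1

theorem PCN_A2 (K : ℂ → ℝ) (b : ℝ) (h1 : ‖fderiv ℝ K Complex.I‖ ≤ b) (h2 : ‖fderiv ℝ (fderiv ℝ K) Complex.I‖ ≤ b)
    (A2 : ℂ →L[ℝ] ℂ →L[ℝ] ℝ) (hA : ∀ u v : ℂ, A2 u v = fderiv ℝ K Complex.I (Complex.I * u * v) +
        fderiv ℝ (fderiv ℝ K) Complex.I (Complex.I * u) (Complex.I * v)) : ‖A2‖ ≤ 2 * b := by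
  have hb : 0 ≤ b := le_trans (norm_nonneg _) h1
  refine ContinuousLinearMap.opNorm_le_bound₂ _ (by linarith) fun u v => ?_
  rw [hA]
  have e1 : ‖fderiv ℝ K Complex.I (Complex.I * u * v)‖ ≤ b * (‖u‖ * ‖v‖) := by
    refine le_trans (ContinuousLinearMap.le_opNorm _ _) ?_
    rw [norm_mul, norm_mul, Complex.norm_I, one_mul]
    exact mul_le_mul_of_nonneg_right h1 (by positivity)
  have e2 : ‖fderiv ℝ (fderiv ℝ K) Complex.I (Complex.I * u) (Complex.I * v)‖ ≤ b * (‖u‖ * ‖v‖) := by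
    refine le_trans (ContinuousLinearMap.le_opNorm₂ _ _ _) ?_
    rw [norm_mul, norm_mul, Complex.norm_I, one_mul, one_mul, mul_assoc]
    exact mul_le_mul_of_nonneg_right h2 (by positivity)
  have e3 := norm_add_le (fderiv ℝ K Complex.I (Complex.I * u * v)) (fderiv ℝ (fderiv ℝ K) Complex.I (Complex.I * u) (Complex.I * v))
  have e4 : 2 * b * ‖u‖ * ‖v‖ = 2 * (b * (‖u‖ * ‖v‖)) := by ring
  rw [e4]
  linarith

theorem PCN_fd2 (K : ℂ → ℝ) (b : ℝ) (h : ‖iteratedFDeriv ℝ 2 K Complex.I‖ ≤ b) : ‖fderiv ℝ (fderiv ℝ K) Complex.I‖ ≤ b := by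
  have h5 : ‖iteratedFDeriv ℝ 1 (fderiv ℝ K) Complex.I‖ = ‖iteratedFDeriv ℝ (1 + 1) K Complex.I‖ :=
    norm_iteratedFDeriv_fderiv
  rw [norm_iteratedFDeriv_one] at h5
  rw [h5]
  exact h

/-- differences of the derivatives -/
theorem PCN_sub (K K' : ℂ → ℝ) (η : ℝ) (hK : ContDiffAt ℝ 2 K Complex.I) (hK' : ContDiffAt ℝ 2 K' Complex.I)
    (h1 : ‖iteratedFDeriv ℝ 1 (fun q => K q - K' q) Complex.I‖ ≤ η) (h2 : ‖iteratedFDeriv ℝ 2 (fun q => K q - K' q) Complex.I‖ ≤ η)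
    (A2 B2 : ℂ →L[ℝ] ℂ →L[ℝ] ℝ) (hA : HasFDerivAt (PCN_A K) A2 0) (hB : HasFDerivAt (PCN_A K') B2 0) :
    ‖PCN_A K 0 - PCN_A K' 0‖ ≤ η ∧ ‖A2 - B2‖ ≤ 2 * η := by
  have hD : ContDiffAt ℝ 2 (fun q => K q - K' q) Complex.I := hK.sub hK'
  rw [norm_iteratedFDeriv_one] at h1
  have h2' := PCN_fd2 _ _ h2
  obtain ⟨D2, hD2, hDv⟩ := PCN_second _ hD
  have hev : (fun w => PCN_A K w - PCN_A K' w) =ᶠ[𝓝 0] PCN_A (fun q => K q - K' q) := by
    filter_upwards [PCN_first K hK, PCN_first K' hK'] with w hw hw'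
    unfold PCN_A
    have e : fderiv ℝ (fun q => K q - K' q) (PCL_m w) = fderiv ℝ K (PCL_m w) - fderiv ℝ K' (PCL_m w) :=
      fderiv_sub hw.1 hw'.1
    rw [e, ContinuousLinearMap.sub_comp]
  have h3 : HasFDerivAt (fun w => PCN_A K w - PCN_A K' w) D2 0 := hD2.congr_of_eventuallyEq hev
  have h4 : A2 - B2 = D2 := (hA.sub hB).unique h3
  have h5 : PCN_A K 0 - PCN_A K' 0 = PCN_A (fun q => K q - K' q) 0 := hev.eq_of_nhds
  rw [h4, h5]
  exact ⟨PCN_A0 _ η h1, PCN_A2 _ η h1 h2' D2 hDv⟩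

/-- the derivatives of `exp (K ∘ m)` -/
theorem PCN_expd (K : ℂ → ℝ) (hK : ContDiffAt ℝ 2 K Complex.I) (A2 : ℂ →L[ℝ] ℂ →L[ℝ] ℝ) (hA : HasFDerivAt (PCN_A K) A2 0) :
    (∀ᶠ w : ℂ in 𝓝 0, HasFDerivAt (fun w => Real.exp (K (PCL_m w))) (Real.exp (K (PCL_m w)) • PCN_A K w) w) ∧
    HasFDerivAt (fun w => Real.exp (K (PCL_m w)) • PCN_A K w)
      (Real.exp (K Complex.I) • A2 + (Real.exp (K Complex.I) • PCN_A K 0).smulRight (PCN_A K 0)) 0 := by
  have h1 := PCN_first K hK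
  have h2 : ∀ᶠ w : ℂ in 𝓝 0, HasFDerivAt (fun w => Real.exp (K (PCL_m w))) (Real.exp (K (PCL_m w)) • PCN_A K w) w := by
    filter_upwards [h1] with w hw
    exact hw.2.exp
  refine ⟨h2, ?_⟩
  have h3 := h2.self_of_nhds
  have h4 := h3.smul hA
  rw [PCL_m0] at h4
  exact h4

theorem PCN_exp (b0 a b η : ℝ) (h1 : η ≤ 1) (ha : |a| ≤ b0) (hab : |a - b| ≤ η) :
    |Real.exp a - Real.exp b| ≤ Real.exp (b0 + 1) * (2 * η) := by
  have hb : b ≤ b0 + 1 := by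
    rw [abs_le] at ha hab
    linarith [ha.1, ha.2, hab.1, hab.2]
  have h2 : Real.exp a - Real.exp b = Real.exp b * (Real.exp (a - b) - 1) := by
    rw [mul_sub, mul_one, ← Real.exp_add]
    have : b + (a - b) = a := by ring
    rw [this]
  have h3 : |Real.exp (a - b) - 1| ≤ 2 * |a - b| := Real.abs_exp_sub_one_le (le_trans hab h1)
  rw [h2, abs_mul, abs_of_pos (Real.exp_pos b)]
  exact mul_le_mul (Real.exp_le_exp.mpr hb) (le_trans h3 (by linarith)) (abs_nonneg _) (Real.exp_pos _).le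

theorem PCN_main (b0 : ℝ) (hb0 : 0 ≤ b0) (K K' : ℂ → ℝ) (η : ℝ) (h0 : 0 ≤ η) (h1 : η ≤ 1)
    (hK : ContDiffAt ℝ 2 K Complex.I) (hK' : ContDiffAt ℝ 2 K' Complex.I)
    (ha : ∀ n ≤ 2, ‖iteratedFDeriv ℝ n K Complex.I‖ ≤ b0)
    (hab : ∀ n ≤ 2, ‖iteratedFDeriv ℝ n (fun q => K q - K' q) Complex.I‖ ≤ η) (n : ℕ) (hn : n ≤ 2) :
    ‖iteratedFDeriv ℝ n (fun w => Real.exp (K (PCL_m w)) - Real.exp (K' (PCL_m w))) 0‖ ≤
      10 * Real.exp (b0 + 1) * (1 + b0) ^ 2 * η := by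
  obtain ⟨A2, hA, hAv⟩ := PCN_second K hK
  obtain ⟨B2, hB, hBv⟩ := PCN_second K' hK'
  have e0 : |K Complex.I| ≤ b0 := by
    have h := ha 0 (by norm_num)
    rwa [norm_iteratedFDeriv_zero, Real.norm_eq_abs] at h
  have e1 : ‖fderiv ℝ K Complex.I‖ ≤ b0 := by
    have h := ha 1 (by norm_num)
    rwa [norm_iteratedFDeriv_one] at h
  have e2 := PCN_fd2 K b0 (ha 2 le_rfl)
  have d0 : |K Complex.I - K' Complex.I| ≤ η := by
    have h := hab 0 (by norm_num)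
    rwa [norm_iteratedFDeriv_zero, Real.norm_eq_abs] at h
  obtain ⟨s1, s2⟩ := PCN_sub K K' η hK hK' (hab 1 (by norm_num)) (hab 2 le_rfl) A2 B2 hA hB
  have nA0 := PCN_A0 K b0 e1
  have nA2 := PCN_A2 K b0 e1 e2 A2 hAv
  have nB0 : ‖PCN_A K' 0‖ ≤ b0 + 1 := by
    have e : PCN_A K' 0 = PCN_A K 0 - (PCN_A K 0 - PCN_A K' 0) := by abel
    rw [e]
    have := norm_sub_le (PCN_A K 0) (PCN_A K 0 - PCN_A K' 0)
    linarith
  have hE := PCN_exp b0 _ _ η h1 e0 d0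
  have hE0 : 0 < Real.exp (b0 + 1) := Real.exp_pos _
  have hea : Real.exp (K Complex.I) ≤ Real.exp (b0 + 1) := Real.exp_le_exp.mpr (by linarith [(abs_le.mp e0).2])
  have heb : Real.exp (K' Complex.I) ≤ Real.exp (b0 + 1) := by
    apply Real.exp_le_exp.mpr
    rw [abs_le] at e0 d0
    linarith [e0.1, e0.2, d0.1, d0.2]
  obtain ⟨EE, hEE⟩ : ∃ EE : ℝ, EE = Real.exp (b0 + 1) := ⟨_, rfl⟩
  obtain ⟨f1, f2⟩ := PCN_expd K hK A2 hA
  obtain ⟨g1, g2⟩ := PCN_expd K' hK' B2 hB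
  rw [← hEE] at hE hE0 hea heb ⊢
  have hEη : 0 ≤ EE * η := by positivity
  have hsq : 1 ≤ (1 + b0) ^ 2 := by nlinarith
  have hsq2 : 1 + b0 ≤ (1 + b0) ^ 2 := by nlinarith
  have hC : 10 * EE * (1 + b0) ^ 2 * η = 10 * (1 + b0) ^ 2 * (EE * η) := by ring
  rw [hC]
  interval_cases n
  · rw [norm_iteratedFDeriv_zero, Real.norm_eq_abs, PCL_m0]
    refine le_trans hE ?_
    nlinarith
  · rw [norm_iteratedFDeriv_one]
    have h2 := (f1.self_of_nhds).sub (g1.self_of_nhds)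
    have h3 : (fun w => Real.exp (K (PCL_m w)) - Real.exp (K' (PCL_m w))) =
      (fun w => Real.exp (K (PCL_m w))) - fun w => Real.exp (K' (PCL_m w)) := rfl
    rw [h3, h2.fderiv, PCL_m0]
    have h5 : Real.exp (K Complex.I) • PCN_A K 0 - Real.exp (K' Complex.I) • PCN_A K' 0 =
        Real.exp (K Complex.I) • (PCN_A K 0 - PCN_A K' 0) + (Real.exp (K Complex.I) - Real.exp (K' Complex.I)) • PCN_A K' 0 := by
      refine ContinuousLinearMap.ext fun w => ?_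
      show Real.exp (K Complex.I) * PCN_A K 0 w - Real.exp (K' Complex.I) * PCN_A K' 0 w =
        Real.exp (K Complex.I) * (PCN_A K 0 w - PCN_A K' 0 w) + (Real.exp (K Complex.I) - Real.exp (K' Complex.I)) * PCN_A K' 0 w
      ring
    rw [h5]
    have h6 : ‖Real.exp (K Complex.I) • (PCN_A K 0 - PCN_A K' 0)‖ ≤ EE * η := by
      rw [norm_smul, Real.norm_eq_abs, abs_of_pos (Real.exp_pos _)]
      exact mul_le_mul hea s1 (norm_nonneg _) hE0.le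
    have h7 : ‖(Real.exp (K Complex.I) - Real.exp (K' Complex.I)) • PCN_A K' 0‖ ≤ EE * (2 * η) * (b0 + 1) := by
      rw [norm_smul, Real.norm_eq_abs]
      exact mul_le_mul hE nB0 (norm_nonneg _) (by positivity)
    have h8 := norm_add_le (Real.exp (K Complex.I) • (PCN_A K 0 - PCN_A K' 0)) ((Real.exp (K Complex.I) - Real.exp (K' Complex.I)) • PCN_A K' 0)
    nlinarith
  · have h9 : fderiv ℝ (fun w => Real.exp (K (PCL_m w)) - Real.exp (K' (PCL_m w))) =ᶠ[𝓝 0]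
        (fun w => Real.exp (K (PCL_m w)) • PCN_A K w) - fun w => Real.exp (K' (PCL_m w)) • PCN_A K' w := by
      filter_upwards [f1, g1] with w hw hw'
      exact (hw.sub hw').fderiv
    have h10 : ‖iteratedFDeriv ℝ 1 (fderiv ℝ (fun w => Real.exp (K (PCL_m w)) - Real.exp (K' (PCL_m w)))) 0‖ =
        ‖iteratedFDeriv ℝ (1 + 1) (fun w => Real.exp (K (PCL_m w)) - Real.exp (K' (PCL_m w))) 0‖ :=
      norm_iteratedFDeriv_fderiv
    rw [norm_iteratedFDeriv_one, h9.fderiv_eq, (f2.sub g2).fderiv] at h10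
    have h11 : (1 + 1 : ℕ) = 2 := rfl
    rw [h11] at h10
    rw [← h10]
    have hX0 : 0 ≤ (2 * b0 + b0 ^ 2) * (EE * (2 * η)) + EE * (2 * η + η * b0 + (b0 + 1) * η) := by positivity
    have hbd : ‖Real.exp (K Complex.I) • A2 + (Real.exp (K Complex.I) • PCN_A K 0).smulRight (PCN_A K 0) -
        (Real.exp (K' Complex.I) • B2 + (Real.exp (K' Complex.I) • PCN_A K' 0).smulRight (PCN_A K' 0))‖ ≤
        (2 * b0 + b0 ^ 2) * (EE * (2 * η)) + EE * (2 * η + η * b0 + (b0 + 1) * η) := by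
      refine ContinuousLinearMap.opNorm_le_bound₂ _ hX0 fun u v => ?_
      have e : (Real.exp (K Complex.I) • A2 + (Real.exp (K Complex.I) • PCN_A K 0).smulRight (PCN_A K 0) -
        (Real.exp (K' Complex.I) • B2 + (Real.exp (K' Complex.I) • PCN_A K' 0).smulRight (PCN_A K' 0))) u v =
          (Real.exp (K Complex.I) - Real.exp (K' Complex.I)) * (A2 u v + PCN_A K 0 u * PCN_A K 0 v) +
          Real.exp (K' Complex.I) * ((A2 - B2) u v + (PCN_A K 0 - PCN_A K' 0) u * PCN_A K 0 v + PCN_A K' 0 u * (PCN_A K 0 - PCN_A K' 0) v) := by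
        show Real.exp (K Complex.I) * A2 u v + (Real.exp (K Complex.I) * PCN_A K 0 u) * PCN_A K 0 v -
          (Real.exp (K' Complex.I) * B2 u v + (Real.exp (K' Complex.I) * PCN_A K' 0 u) * PCN_A K' 0 v) =
          (Real.exp (K Complex.I) - Real.exp (K' Complex.I)) * (A2 u v + PCN_A K 0 u * PCN_A K 0 v) +
          Real.exp (K' Complex.I) * ((A2 u v - B2 u v) + (PCN_A K 0 u - PCN_A K' 0 u) * PCN_A K 0 v + PCN_A K' 0 u * (PCN_A K 0 v - PCN_A K' 0 v))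
        ring
      rw [e]
      have k1 : |A2 u v| ≤ 2 * b0 * (‖u‖ * ‖v‖) := by
        have := ContinuousLinearMap.le_opNorm₂ A2 u v
        rw [Real.norm_eq_abs, mul_assoc] at this
        exact le_trans this (mul_le_mul_of_nonneg_right nA2 (by positivity))
      have k2 : ∀ (T : ℂ →L[ℝ] ℝ) (t : ℝ) (x : ℂ), ‖T‖ ≤ t → |T x| ≤ t * ‖x‖ := by
        intro T t x hT
        have := ContinuousLinearMap.le_opNorm T x
        rw [Real.norm_eq_abs] at this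
        exact le_trans this (mul_le_mul_of_nonneg_right hT (norm_nonneg _))
      have k3 : |PCN_A K 0 u * PCN_A K 0 v| ≤ b0 ^ 2 * (‖u‖ * ‖v‖) := by
        rw [abs_mul]
        have := mul_le_mul (k2 _ _ u nA0) (k2 _ _ v nA0) (abs_nonneg _) (by positivity)
        linarith
      have k4 : |(A2 - B2) u v| ≤ 2 * η * (‖u‖ * ‖v‖) := by
        have := ContinuousLinearMap.le_opNorm₂ (A2 - B2) u v
        rw [Real.norm_eq_abs, mul_assoc] at this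
        exact le_trans this (mul_le_mul_of_nonneg_right s2 (by positivity))
      have k5 : |(PCN_A K 0 - PCN_A K' 0) u * PCN_A K 0 v| ≤ η * b0 * (‖u‖ * ‖v‖) := by
        rw [abs_mul]
        have := mul_le_mul (k2 _ _ u s1) (k2 _ _ v nA0) (abs_nonneg _) (by positivity)
        linarith
      have k6 : |PCN_A K' 0 u * (PCN_A K 0 - PCN_A K' 0) v| ≤ (b0 + 1) * η * (‖u‖ * ‖v‖) := by
        rw [abs_mul]
        have := mul_le_mul (k2 _ _ u nB0) (k2 _ _ v s1) (abs_nonneg _) (by positivity)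
        linarith
      have k7 : |A2 u v + PCN_A K 0 u * PCN_A K 0 v| ≤ (2 * b0 + b0 ^ 2) * (‖u‖ * ‖v‖) := by
        have := abs_add_le (A2 u v) (PCN_A K 0 u * PCN_A K 0 v)
        linarith
      have k8 : |(A2 - B2) u v + (PCN_A K 0 - PCN_A K' 0) u * PCN_A K 0 v + PCN_A K' 0 u * (PCN_A K 0 - PCN_A K' 0) v| ≤
          (2 * η + η * b0 + (b0 + 1) * η) * (‖u‖ * ‖v‖) := by
        have q1 := abs_add_le ((A2 - B2) u v + (PCN_A K 0 - PCN_A K' 0) u * PCN_A K 0 v) (PCN_A K' 0 u * (PCN_A K 0 - PCN_A K' 0) v)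
        have q2 := abs_add_le ((A2 - B2) u v) ((PCN_A K 0 - PCN_A K' 0) u * PCN_A K 0 v)
        linarith
      have k9 : |(Real.exp (K Complex.I) - Real.exp (K' Complex.I)) * (A2 u v + PCN_A K 0 u * PCN_A K 0 v)| ≤
          EE * (2 * η) * ((2 * b0 + b0 ^ 2) * (‖u‖ * ‖v‖)) := by
        rw [abs_mul]
        exact mul_le_mul hE k7 (abs_nonneg _) (by positivity)
      have k10 : |Real.exp (K' Complex.I) * ((A2 - B2) u v + (PCN_A K 0 - PCN_A K' 0) u * PCN_A K 0 v + PCN_A K' 0 u * (PCN_A K 0 - PCN_A K' 0) v)| ≤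
          EE * ((2 * η + η * b0 + (b0 + 1) * η) * (‖u‖ * ‖v‖)) := by
        rw [abs_mul, abs_of_pos (Real.exp_pos _)]
        exact mul_le_mul heb k8 (abs_nonneg _) hE0.le
      have k11 := abs_add_le ((Real.exp (K Complex.I) - Real.exp (K' Complex.I)) * (A2 u v + PCN_A K 0 u * PCN_A K 0 v))
        (Real.exp (K' Complex.I) * ((A2 - B2) u v + (PCN_A K 0 - PCN_A K' 0) u * PCN_A K 0 v + PCN_A K' 0 u * (PCN_A K 0 - PCN_A K' 0) v))
      rw [Real.norm_eq_abs]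
      have k12 : ((2 * b0 + b0 ^ 2) * (EE * (2 * η)) + EE * (2 * η + η * b0 + (b0 + 1) * η)) * ‖u‖ * ‖v‖ =
          EE * (2 * η) * ((2 * b0 + b0 ^ 2) * (‖u‖ * ‖v‖)) + EE * ((2 * η + η * b0 + (b0 + 1) * η) * (‖u‖ * ‖v‖)) := by ring
      rw [k12]
      linarith
    refine le_trans hbd ?_
    have h13 : (2 * b0 + b0 ^ 2) * (EE * (2 * η)) + EE * (2 * η + η * b0 + (b0 + 1) * η) =
        (2 * b0 ^ 2 + 6 * b0 + 3) * (EE * η) := by ring
    rw [h13]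
    refine mul_le_mul_of_nonneg_right ?_ hEη
    nlinarith

theorem PCN_cd (G : ℍ → ℝ) (hG : QU.CD ∞ G) (g : SL(2, ℝ)) :
    ContDiffAt ℝ 2 (QU.onC fun z => G (g • z)) Complex.I := by
  have h1 : QU.CD ∞ (fun z => G (g • z)) := Pool.Agent.RPQ.LIP_cd G g ∞ hG
  unfold QU.CD at h1
  have h := contDiffOn_infty.mp h1 2
  have h' : ContDiffOn ℝ 2 (QU.onC fun z => G (g • z)) {w : ℂ | 0 < w.im} := by exact_mod_cast h
  exact h'.contDiffAt (Pool.Agent.RPQ.LIP_open.mem_nhds (by simp))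

theorem PCN_proof : PCN_stmt := by
  intro b0 hb0
  have hE1 : 1 ≤ Real.exp (b0 + 1) := Real.one_le_exp (by linarith)
  refine ⟨10 * Real.exp (b0 + 1) * (1 + b0) ^ 2, ?_, ?_⟩
  · have h1 : 1 ≤ (1 + b0) ^ 2 := by nlinarith
    nlinarith
  · intro G G' η hG hG' h0 h1 hB hB' g n hn
    exact PCN_main b0 hb0 (QU.onC fun z => G (g • z)) (QU.onC fun z => G' (g • z)) η h0 h1 (PCN_cd G hG g) (PCN_cd G' hG' g)
      (fun n hn => hB n hn g) (fun n hn => hB' n hn g) n hn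

end

end Pool.Agent.VN
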