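import Pool.Agent.helper11.VN.Spec3b
import Pool.Agent.helper62.RS.All
import Pool.Agent.helper79.RPQ.GRW

/-!
# MP_07c750 (QUE), project VN, row VBL (volume of balls)
-/

set_option autoImplicit false

open scoped MatrixGroups ContDiff Topology UpperHalfPlane ComplexConjugate ENNReal
open UpperHalfPlane MeasureTheory Filter Set

namespace Pool.Agent.VN

open Pool.Agent.RS

noncomputable section

theorem VBL_proof : VBL_stmt := by
  obtain ⟨C, hC, hball⟩ := Pool.Agent.RPQ.GRW_ball
  obtain ⟨hG, -⟩ := Pool.Agent.RS.A_GMG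
  refine ⟨max 1 (C * Real.exp 1), le_max_left _ _, fun T z hT => ?_⟩
  obtain ⟨-, h2⟩ := hG (Metric.ball z (T + 1)) Metric.isOpen_ball.measurableSet
  have hsub : {g : SL(2, ℝ) | dist z (g • I) ≤ T} ⊆ dG (Metric.ball z (T + 1)) := by
    intro g hg
    have hg' : dist z (g • I) ≤ T := hg
    show g • I ∈ Metric.ball z (T + 1)
    rw [Metric.mem_ball, dist_comm]
    linarith
  have hfin : (volume : Measure ℍ) (Metric.ball z (T + 1)) < ⊤ :=
    (measure_mono Metric.ball_subset_closedBall).trans_lt (isCompact_closedBall z (T + 1)).measure_lt_top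
  calc mG {g : SL(2, ℝ) | dist z (g • I) ≤ T} ≤ mG (dG (Metric.ball z (T + 1))) := measure_mono hsub
    _ = volume (Metric.ball z (T + 1)) := h2
    _ = ENNReal.ofReal (volume.real (Metric.ball z (T + 1))) := (ENNReal.ofReal_toReal hfin.ne).symm
    _ ≤ ENNReal.ofReal (max 1 (C * Real.exp 1) * Real.exp T) := by
      apply ENNReal.ofReal_le_ofReal
      refine (hball z (T + 1) (by linarith)).trans ?_
      rw [Real.exp_add]
      have h3 : C * (Real.exp T * Real.exp 1) = C * Real.exp 1 * Real.exp T := by ring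
      rw [h3]
      exact mul_le_mul_of_nonneg_right (le_max_right _ _) (Real.exp_pos T).le

end

end Pool.Agent.VN
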